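import Pool.Agent.T9h3.LN.Spec2

/-!
# Project LN, piece (C2): base change of the function field of a split torus

`K' = M' ⊗[M] K`. It is a domain: the group algebra `M'[L]` embeds, and each element of `K'` has a
denominator in `K`; so it is a field. The action is the semilinear one; the invariants are computed
with coordinates in a basis of `K` over `M`.
-/

set_option autoImplicit false
set_option linter.overlappingInstances false
set_option linter.unusedSectionVars false
set_option linter.unusedVariables false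

namespace Pool.Agent.T9h83.LN

open scoped TensorProduct
open Pool.Agent.T9h3.LN


section Dom

variable {M M' K L : Type} [Field M] [Field M'] [Field K] [Algebra M M'] [Algebra M K]

/-- The elements of the torus. -/
noncomputable def vv (M' : Type) [Field M'] [Algebra M M'] (χ : L → K) (x : L) : M' ⊗[M] K :=
  (1 : M') ⊗ₜ[M] χ x

theorem linInd (χ : L → K) (h : LinearIndependent M χ) :
    LinearIndependent M' (vv (M := M) M' χ) :=
  Module.Flat.linearIndependent_one_tmul h

variable [AddCommGroup L]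

/-- The homomorphism from the group algebra. -/
noncomputable def Phi (R : Type) [Field R] (A : Type) [CommRing A] [Algebra R A] (χ : L → A)
    (h0 : χ 0 = 1) (hm : ∀ x y, χ (x + y) = χ x * χ y) :
    AddMonoidAlgebra R L →ₐ[R] A :=
  AddMonoidAlgebra.lift R A L
    { toFun := fun x => χ x.toAdd, map_one' := h0, map_mul' := fun x y => hm _ _ }

theorem Phi_inj (R : Type) [Field R] (A : Type) [CommRing A] [Algebra R A] (χ : L → A)
    (h0 : χ 0 = 1) (hm : ∀ x y, χ (x + y) = χ x * χ y) (hl : LinearIndependent R χ) :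
    Function.Injective (Phi R A χ h0 hm) := by
  intro p q hpq
  apply AddMonoidAlgebra.coeff_injective
  apply hl
  rw [Finsupp.linearCombination_apply, Finsupp.linearCombination_apply]
  have h1 : ∀ f : AddMonoidAlgebra R L, Phi R A χ h0 hm f = f.coeff.sum fun a b => b • χ a :=
    fun f => AddMonoidAlgebra.lift_apply _ f
  rw [← h1, ← h1]
  exact hpq

theorem Phi_range (R : Type) [Field R] (A : Type) [CommRing A] [Algebra R A] (χ : L → A)
    (h0 : χ 0 = 1) (hm : ∀ x y, χ (x + y) = χ x * χ y) (a : A)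
    (ha : a ∈ Algebra.adjoin R (Set.range χ)) : ∃ p, Phi R A χ h0 hm p = a := by
  have h2 : Algebra.adjoin R (Set.range χ) ≤ (Phi R A χ h0 hm).range := by
    rw [Algebra.adjoin_le_iff]
    rintro _ ⟨x, rfl⟩
    refine ⟨AddMonoidAlgebra.single x 1, ?_⟩
    show AddMonoidAlgebra.lift R A L _ _ = _
    rw [AddMonoidAlgebra.lift_single, one_smul]
    rfl
  exact h2 ha

theorem nzd [Module.Free ℤ L] (R : Type) [Field R] : NoZeroDivisors (AddMonoidAlgebra R L) := by
  have : UniqueSums L :=
    UniqueSums.of_injective_addHom (Module.Free.chooseBasis ℤ L).repr.toAddEquiv.toAddMonoidHom.toAddHom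
      (Module.Free.chooseBasis ℤ L).repr.injective inferInstance
  infer_instance

/-- Common denominators. -/
theorem denom (χ : L → K) (h0 : χ 0 = 1) (hm : ∀ x y, χ (x + y) = χ x * χ y)
    (hadj : IntermediateField.adjoin M (Set.range χ) = ⊤) (h0' : vv (M := M) M' χ 0 = 1)
    (hm' : ∀ x y, vv (M := M) M' χ (x + y) = vv M' χ x * vv M' χ y) (a : M' ⊗[M] K) :
    ∃ d : K, d ≠ 0 ∧ d ∈ Algebra.adjoin M (Set.range χ) ∧
      ∃ p, Phi M' (M' ⊗[M] K) (vv M' χ) h0' hm' p = ((1 : M') ⊗ₜ[M] d) * a := by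
  have key : ∀ s ∈ Algebra.adjoin M (Set.range χ),
      ∃ p, Phi M' (M' ⊗[M] K) (vv M' χ) h0' hm' p = (1 : M') ⊗ₜ[M] s := by
    intro s hs
    apply Phi_range
    have h1 : Algebra.adjoin M (Set.range χ) ≤
        ((Algebra.adjoin M' (Set.range (vv (M := M) M' χ))).restrictScalars M).comap
          (Algebra.TensorProduct.includeRight : K →ₐ[M] M' ⊗[M] K) := by
      rw [Algebra.adjoin_le_iff]
      rintro _ ⟨x, rfl⟩
      show Algebra.TensorProduct.includeRight (χ x) ∈ Algebra.adjoin M' (Set.range (vv (M := M) M' χ))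
      exact Algebra.subset_adjoin ⟨x, rfl⟩
    exact h1 hs
  induction a using TensorProduct.induction_on with
  | zero => exact ⟨1, one_ne_zero, Subalgebra.one_mem _, 0, by simp⟩
  | tmul m k =>
    have hk : k ∈ IntermediateField.adjoin M (Set.range χ) := by rw [hadj]; trivial
    rw [IntermediateField.mem_adjoin_iff_div] at hk
    obtain ⟨r, hr, s, hs, rfl⟩ := hk
    by_cases hs0 : s = 0
    · refine ⟨1, one_ne_zero, Subalgebra.one_mem _, 0, ?_⟩
      rw [hs0, div_zero, TensorProduct.tmul_zero, mul_zero, map_zero]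
    · obtain ⟨p, hp⟩ := key r hr
      refine ⟨s, hs0, hs, m • p, ?_⟩
      rw [map_smul, hp, Algebra.TensorProduct.tmul_mul_tmul, one_mul, mul_div_cancel₀ _ hs0,
        TensorProduct.smul_tmul', smul_eq_mul, mul_one]
  | add x y hx hy =>
    obtain ⟨d, hd0, hd, p, hp⟩ := hx
    obtain ⟨e, he0, he, q, hq⟩ := hy
    obtain ⟨d', hd'⟩ := key d hd
    obtain ⟨e', he'⟩ := key e he
    refine ⟨d * e, mul_ne_zero hd0 he0, Subalgebra.mul_mem _ hd he, e' * p + d' * q, ?_⟩
    rw [map_add, map_mul, map_mul, hp, hq, hd', he']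
    have : (1 : M') ⊗ₜ[M] (d * e) = ((1 : M') ⊗ₜ[M] d) * ((1 : M') ⊗ₜ[M] e) := by
      rw [Algebra.TensorProduct.tmul_mul_tmul, one_mul]
    rw [this]
    ring

theorem dom [Module.Free ℤ L] (χ : L → K) (h0 : χ 0 = 1) (hm : ∀ x y, χ (x + y) = χ x * χ y)
    (hl : LinearIndependent M χ)
    (hadj : IntermediateField.adjoin M (Set.range χ) = ⊤) : IsDomain (M' ⊗[M] K) := by
  have h0' : vv (M := M) M' χ 0 = 1 := by rw [vv, h0]; rfl
  have hm' : ∀ x y, vv (M := M) M' χ (x + y) = vv M' χ x * vv M' χ y := by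
    intro x y
    rw [vv, vv, vv, Algebra.TensorProduct.tmul_mul_tmul, one_mul, hm]
  have hnt : Nontrivial (M' ⊗[M] K) := inferInstance
  have hz : NoZeroDivisors (AddMonoidAlgebra M' L) := nzd M'
  have hinj := Phi_inj M' (M' ⊗[M] K) (vv (M := M) M' χ) h0' hm' (linInd χ hl)
  have hunit : ∀ d : K, d ≠ 0 → ∀ a : M' ⊗[M] K, ((1 : M') ⊗ₜ[M] d) * a = 0 → a = 0 := by
    intro d hd a ha
    have h3 : ((1 : M') ⊗ₜ[M] d⁻¹) * (((1 : M') ⊗ₜ[M] d) * a) = a := by
      rw [← mul_assoc, Algebra.TensorProduct.tmul_mul_tmul, one_mul, inv_mul_cancel₀ hd,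
        ← Algebra.TensorProduct.one_def, one_mul]
    rw [← h3, ha, mul_zero]
  have : NoZeroDivisors (M' ⊗[M] K) := by
    constructor
    intro a b hab
    obtain ⟨d, hd0, -, p, hp⟩ := denom χ h0 hm hadj h0' hm' a
    obtain ⟨e, he0, -, q, hq⟩ := denom χ h0 hm hadj h0' hm' b
    have h4 : p * q = 0 := by
      apply hinj
      rw [map_mul, hp, hq, map_zero]
      calc _ = ((1 : M') ⊗ₜ[M] d) * ((1 : M') ⊗ₜ[M] e) * (a * b) := by ring
        _ = 0 := by rw [hab, mul_zero]
    rcases mul_eq_zero.1 h4 with h5 | h5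
    · left
      apply hunit d hd0
      rw [← hp, h5, map_zero]
    · right
      apply hunit e he0
      rw [← hq, h5, map_zero]
  exact NoZeroDivisors.to_isDomain _

end Dom



section Act

variable {M M' K : Type} [Field M] [Field M'] [Field K] [Algebra M M'] [Algebra M K]

/-- The additive semilinear map. -/
noncomputable def thA (g : M' →+* M') (r : K →+* K) (h : M →+* M)
    (hg : ∀ x, g (algebraMap M M' x) = algebraMap M M' (h x))
    (hr : ∀ x, r (algebraMap M K x) = algebraMap M K (h x)) : M' ⊗[M] K →+ M' ⊗[M] K :=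
  TensorProduct.liftAddHom
    { toFun := fun m =>
        { toFun := fun k => (g m) ⊗ₜ[M] (r k)
          map_zero' := by rw [map_zero, TensorProduct.tmul_zero]
          map_add' := fun a b => by rw [map_add, TensorProduct.tmul_add] }
      map_zero' := by
        ext k
        show (g 0) ⊗ₜ[M] (r k) = 0
        rw [map_zero, TensorProduct.zero_tmul]
      map_add' := fun a b => by
        ext k
        show (g (a + b)) ⊗ₜ[M] (r k) = (g a) ⊗ₜ[M] (r k) + (g b) ⊗ₜ[M] (r k)
        rw [map_add, TensorProduct.add_tmul] }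
    (fun c m k => by
      show (g (c • m)) ⊗ₜ[M] (r k) = (g m) ⊗ₜ[M] (r (c • k))
      rw [Algebra.smul_def, Algebra.smul_def, map_mul, map_mul, hg, hr, ← Algebra.smul_def,
        ← Algebra.smul_def, TensorProduct.smul_tmul])

theorem thA_tmul (g : M' →+* M') (r : K →+* K) (h : M →+* M)
    (hg : ∀ x, g (algebraMap M M' x) = algebraMap M M' (h x))
    (hr : ∀ x, r (algebraMap M K x) = algebraMap M K (h x)) (m : M') (k : K) :
    thA g r h hg hr (m ⊗ₜ[M] k) = (g m) ⊗ₜ[M] (r k) := rfl

/-- The semilinear ring homomorphism. -/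
noncomputable def th (g : M' →+* M') (r : K →+* K) (h : M →+* M)
    (hg : ∀ x, g (algebraMap M M' x) = algebraMap M M' (h x))
    (hr : ∀ x, r (algebraMap M K x) = algebraMap M K (h x)) : M' ⊗[M] K →+* M' ⊗[M] K where
  toFun := thA g r h hg hr
  map_zero' := map_zero _
  map_add' := map_add _
  map_one' := by
    rw [Algebra.TensorProduct.one_def, thA_tmul, map_one, map_one]
  map_mul' := by
    intro a b
    induction a using TensorProduct.induction_on with
    | zero => rw [zero_mul, map_zero, zero_mul]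
    | add x y hx hy => rw [add_mul, map_add, map_add, hx, hy, add_mul]
    | tmul m k =>
      induction b using TensorProduct.induction_on with
      | zero => rw [mul_zero, map_zero, mul_zero]
      | add x y hx hy => rw [mul_add, map_add, map_add, hx, hy, mul_add]
      | tmul m2 k2 =>
        rw [Algebra.TensorProduct.tmul_mul_tmul, thA_tmul, thA_tmul, thA_tmul,
          Algebra.TensorProduct.tmul_mul_tmul, map_mul, map_mul]

theorem th_tmul (g : M' →+* M') (r : K →+* K) (h : M →+* M)
    (hg : ∀ x, g (algebraMap M M' x) = algebraMap M M' (h x))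
    (hr : ∀ x, r (algebraMap M K x) = algebraMap M K (h x)) (m : M') (k : K) :
    th g r h hg hr (m ⊗ₜ[M] k) = (g m) ⊗ₜ[M] (r k) := rfl

theorem hom_ext (f g : M' ⊗[M] K →+* M' ⊗[M] K) (h : ∀ m k, f (m ⊗ₜ[M] k) = g (m ⊗ₜ[M] k)) :
    f = g := by
  refine RingHom.ext fun a => ?_
  induction a using TensorProduct.induction_on with
  | zero => rw [map_zero, map_zero]
  | add x y hx hy => rw [map_add, map_add, hx, hy]
  | tmul m k => exact h m k

end Act

section Gal

variable {E M M' K : Type} [Field E] [Field M] [Field M'] [Field K] [Algebra E M]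
  [FiniteDimensional E M] [IsGalois E M] [Algebra E M'] [FiniteDimensional E M'] [IsGalois E M']
  [Algebra M M'] [IsScalarTower E M M'] [Algebra M K] [Algebra E K]
  (ρ : (M ≃ₐ[E] M) →* (K ≃ₐ[E] K))
  (hρ : ∀ g x, ρ g (algebraMap M K x) = algebraMap M K (g x))

theorem rn_comm (g : M' ≃ₐ[E] M') (x : M) :
    g (algebraMap M M' x) = algebraMap M M' (AlgEquiv.restrictNormalHom M g x) :=
  (AlgEquiv.restrictNormal_commutes g M x).symm

/-- The action, homomorphism version. -/
noncomputable def act (g : M' ≃ₐ[E] M') : M' ⊗[M] K →+* M' ⊗[M] K :=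
  th (g : M' →+* M') (ρ (AlgEquiv.restrictNormalHom M g) : K →+* K)
    ((AlgEquiv.restrictNormalHom M g : M ≃ₐ[E] M) : M →+* M)
    (fun x => rn_comm g x) (fun x => hρ _ x)

theorem act_tmul (g : M' ≃ₐ[E] M') (m : M') (k : K) :
    act ρ hρ g (m ⊗ₜ[M] k) = (g m) ⊗ₜ[M] (ρ (AlgEquiv.restrictNormalHom M g) k) := rfl

theorem act_one : act (M' := M') ρ hρ 1 = RingHom.id _ := by
  apply hom_ext
  intro m k
  rw [act_tmul, map_one, map_one]
  rfl

theorem act_mul (g h : M' ≃ₐ[E] M') : act ρ hρ (g * h) = (act ρ hρ g).comp (act ρ hρ h) := by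
  apply hom_ext
  intro m k
  rw [RingHom.comp_apply, act_tmul, act_tmul, act_tmul, map_mul, map_mul]
  rfl

/-- The action. -/
noncomputable def actE : (M' ≃ₐ[E] M') →* (M' ⊗[M] K ≃+* M' ⊗[M] K) where
  toFun g := RingEquiv.ofRingHom (act ρ hρ g) (act ρ hρ g⁻¹)
    (by rw [← act_mul, mul_inv_cancel, act_one]) (by rw [← act_mul, inv_mul_cancel, act_one])
  map_one' := by
    ext a
    show act ρ hρ 1 a = a
    rw [act_one]
    rfl
  map_mul' g h := by
    ext a
    show act ρ hρ (g * h) a = act ρ hρ g (act ρ hρ h a)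
    rw [act_mul]
    rfl

theorem actE_tmul (g : M' ≃ₐ[E] M') (m : M') (k : K) :
    actE ρ hρ g (m ⊗ₜ[M] k) = (g m) ⊗ₜ[M] (ρ (AlgEquiv.restrictNormalHom M g) k) := rfl

theorem inv1 (y : M' ⊗[M] K) (hy : ∀ g, actE ρ hρ g y = y) :
    ∃ k : K, y = (1 : M') ⊗ₜ[M] k := by
  classical
  have hGal : IsGalois M M' := IsGalois.tower_top_of_isGalois E M M'
  have hfd : FiniteDimensional M M' := Module.Finite.of_restrictScalars_finite E M M'
  let b := Module.Free.chooseBasis M K
  let B := Algebra.TensorProduct.basis M' b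
  have hB : ∀ m j, B.repr (m ⊗ₜ[M] b j) = Finsupp.single j m := by
    intro m j
    have h1 : m ⊗ₜ[M] b j = m • B j := by
      show _ = m • Algebra.TensorProduct.basis M' b j
      rw [Algebra.TensorProduct.basis_apply, TensorProduct.smul_tmul', smul_eq_mul, mul_one]
    rw [h1, map_smul, Module.Basis.repr_self, Finsupp.smul_single, smul_eq_mul, mul_one]
  have hsum : y = ∑ j ∈ (B.repr y).support, (B.repr y j) ⊗ₜ[M] b j := by
    conv_lhs => rw [← B.linearCombination_repr y, Finsupp.linearCombination_apply, Finsupp.sum]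
    refine Finset.sum_congr rfl fun j _ => ?_
    show _ • Algebra.TensorProduct.basis M' b j = _
    rw [Algebra.TensorProduct.basis_apply, TensorProduct.smul_tmul', smul_eq_mul, mul_one]
  have hco : ∀ (σ : M' ≃ₐ[M] M') (j), σ (B.repr y j) = B.repr y j := by
    intro σ j
    let g : M' ≃ₐ[E] M' := σ.restrictScalars E
    have hg1 : AlgEquiv.restrictNormalHom M g = 1 := by
      ext x
      apply (algebraMap M M').injective
      rw [← rn_comm]
      show σ (algebraMap M M' x) = _
      rw [σ.commutes]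
      rfl
    have h2 : actE ρ hρ g y = ∑ j ∈ (B.repr y).support, (g (B.repr y j)) ⊗ₜ[M] b j := by
      conv_lhs => rw [hsum, map_sum]
      refine Finset.sum_congr rfl fun j _ => ?_
      rw [actE_tmul, hg1, map_one]
      rfl
    rw [hy g] at h2
    have h3 := congrArg (fun z => B.repr z j) h2
    simp only [map_sum, hB, Finsupp.coe_finsetSum, Finset.sum_apply, Finsupp.single_apply,
      Finset.sum_ite_eq'] at h3
    by_cases hj : j ∈ (B.repr y).support
    · rw [if_pos hj] at h3
      exact h3.symm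
    · rw [Finsupp.notMem_support_iff] at hj
      rw [hj, map_zero]
  have hex : ∀ j, ∃ d : M, algebraMap M M' d = B.repr y j := by
    intro j
    exact (IsGalois.mem_range_algebraMap_iff_fixed _).2 fun σ => hco σ j
  choose d hd using hex
  refine ⟨∑ j ∈ (B.repr y).support, d j • b j, ?_⟩
  rw [TensorProduct.tmul_sum]
  conv_lhs => rw [hsum]
  refine Finset.sum_congr rfl fun j _ => ?_
  rw [← hd j, TensorProduct.tmul_smul, TensorProduct.smul_tmul', Algebra.smul_def, mul_one]

theorem inv2 {F : Type} [Field F] [Algebra E F] [Algebra F K]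
    (hF : ∀ y, (∀ g, ρ g y = y) ↔ ∃ z : F, algebraMap F K z = y)
    (y : M' ⊗[M] K) (hy : ∀ g, actE ρ hρ g y = y) :
    ∃ z : F, (1 : M') ⊗ₜ[M] (algebraMap F K z) = y := by
  obtain ⟨k, rfl⟩ := inv1 ρ hρ y hy
  have h1 : ∀ g, ρ g k = k := by
    intro g
    obtain ⟨g', rfl⟩ := AlgEquiv.restrictNormalHom_surjective (F := E) (K₁ := M) M' g
    have h2 := hy g'
    rw [actE_tmul, map_one] at h2
    exact Algebra.TensorProduct.includeRight_injective (R := M) (A := M') (B := K)
      (algebraMap M M').injective h2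
  obtain ⟨z, hz⟩ := (hF k).1 h1
  exact ⟨z, by rw [hz]⟩

end Gal


section Fin

theorem key2 {M M' K L : Type} [Field M] [Field M'] [Field K] [Algebra M M'] [Algebra M K]
    (χ : L → K) : ∀ s ∈ Algebra.adjoin M (Set.range χ),
      (1 : M') ⊗ₜ[M] s ∈ Algebra.adjoin M' (Set.range (vv (M := M) M' χ)) := by
  intro s hs
  have h1 : Algebra.adjoin M (Set.range χ) ≤
      ((Algebra.adjoin M' (Set.range (vv (M := M) M' χ))).restrictScalars M).comap
        (Algebra.TensorProduct.includeRight : K →ₐ[M] M' ⊗[M] K) := by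
    rw [Algebra.adjoin_le_iff]
    rintro _ ⟨x, rfl⟩
    show Algebra.TensorProduct.includeRight (χ x) ∈ Algebra.adjoin M' (Set.range (vv (M := M) M' χ))
    exact Algebra.subset_adjoin ⟨x, rfl⟩
  exact h1 hs

/-- **The base change of the function field.** -/
theorem base : S_Base := by
  intro E M M' F K L _ _ _ _ _ _ _ _ _ _ _ _ _ _ _ _ _ _ _ _ _ _ _ ρ χ hρ hF h0 hm hl hadj hχ
  have hdom : IsDomain (M' ⊗[M] K) := dom χ h0 hm hl hadj
  have hfd : FiniteDimensional M M' := Module.Finite.of_restrictScalars_finite E M M'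
  have hfield : IsField (M' ⊗[M] K) :=
    Algebra.TensorProduct.isField_of_isAlgebraic M M' K (Or.inl inferInstance)
  let fK : Field (M' ⊗[M] K) := hfield.toField
  refine ⟨M' ⊗[M] K, fK, Algebra.TensorProduct.leftAlgebra,
    (Algebra.TensorProduct.includeRight : K →ₐ[M] M' ⊗[M] K).toRingHom, actE ρ hρ,
    ?_, ?_, ?_, ?_, ?_, ?_⟩
  · intro x
    exact (Algebra.TensorProduct.includeRight : K →ₐ[M] M' ⊗[M] K).commutes x
  · intro g x
    show actE ρ hρ g (x ⊗ₜ[M] 1) = (g x) ⊗ₜ[M] 1
    rw [actE_tmul, map_one]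
  · intro g y
    show actE ρ hρ g (1 ⊗ₜ[M] y) = 1 ⊗ₜ[M] _
    rw [actE_tmul, map_one]
  · intro y' hy'
    exact inv2 ρ hρ hF y' hy'
  · exact linInd χ hl
  · rw [eq_top_iff]
    intro a _
    induction a using TensorProduct.induction_on with
    | zero => exact zero_mem _
    | add x y hx hy => exact add_mem (hx trivial) (hy trivial)
    | tmul m k =>
      have hk : k ∈ IntermediateField.adjoin M (Set.range χ) := by rw [hadj]; trivial
      rw [IntermediateField.mem_adjoin_iff_div] at hk
      obtain ⟨r, hr, s, hs, rfl⟩ := hk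
      have h1 := key2 (M' := M') χ r hr
      have h2 := key2 (M' := M') χ s hs
      have h3 : m ⊗ₜ[M] (r / s) = (algebraMap M' (M' ⊗[M] K) m) *
          ((1 : M') ⊗ₜ[M] r / (1 : M') ⊗ₜ[M] s : M' ⊗[M] K) := by
        have h4 : ((1 : M') ⊗ₜ[M] (r / s) : M' ⊗[M] K) = (1 : M') ⊗ₜ[M] r / (1 : M') ⊗ₜ[M] s :=
          map_div₀ ((Algebra.TensorProduct.includeRight : K →ₐ[M] M' ⊗[M] K).toRingHom) r s
        rw [← h4]
        show m ⊗ₜ[M] (r / s) = (m ⊗ₜ[M] (1 : K)) * ((1 : M') ⊗ₜ[M] (r / s))
        rw [Algebra.TensorProduct.tmul_mul_tmul, one_mul, mul_one]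
      rw [h3]
      refine mul_mem (IntermediateField.algebraMap_mem _ m) ?_
      exact IntermediateField.mem_adjoin_iff_div.2 ⟨_, h1, _, h2, rfl⟩

end Fin

end Pool.Agent.T9h83.LN
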